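import Pool.Agent.Helper7.KT.St

/-!
Project KT (MP_5176ab_co), module DCN: double counting.
-/

set_option autoImplicit false

namespace Pool.Agent.Helper98.KT

open Finset SimpleGraph Filter Topology
open EX Pool.Agent.Helper7.KT

open scoped Classical

/-- **DCN**: double counting. -/
theorem hDCN : StDCN := by
  intro V Γ a t S h
  have h1 : ∀ v ∈ S, (dg Γ S v).choose a =
      ((powersetCard a S).bipartiteAbove (fun (v : V) (A : Finset V) => A ⊆ nb Γ S v) v).card := by
    intro v _
    unfold dg
    rw [← card_powersetCard]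
    congr 1
    ext A
    simp only [mem_powersetCard, Finset.mem_bipartiteAbove]
    constructor
    · rintro ⟨hA, hc⟩
      exact ⟨⟨hA.trans (filter_subset _ _), hc⟩, hA⟩
    · rintro ⟨⟨_, hc⟩, hA⟩
      exact ⟨hA, hc⟩
  rw [Finset.sum_congr rfl h1, Finset.sum_card_bipartiteAbove_eq_sum_card_bipartiteBelow]
  have h2 : ∀ A ∈ powersetCard a S,
      (S.bipartiteBelow (fun (v : V) (A : Finset V) => A ⊆ nb Γ S v) A).card ≤ t - 1 := by
    intro A hA
    rw [mem_powersetCard] at hA
    have h3 := h A hA.1 hA.2
    have h4 : (S.bipartiteBelow (fun (v : V) (A : Finset V) => A ⊆ nb Γ S v) A).card ≤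
        (S.filter fun v => ∀ x ∈ A, Γ.Adj v x).card := by
      refine card_le_card ?_
      intro v hv
      rw [Finset.mem_bipartiteBelow] at hv
      rw [mem_filter]
      refine ⟨hv.1, fun x hx => ?_⟩
      have h5 := hv.2 hx
      unfold nb at h5
      exact (mem_filter.1 h5).2
    omega
  calc ∑ A ∈ powersetCard a S,
        (S.bipartiteBelow (fun (v : V) (A : Finset V) => A ⊆ nb Γ S v) A).card
      ≤ ∑ _A ∈ powersetCard a S, (t - 1) := Finset.sum_le_sum h2
    _ = (t - 1) * S.card.choose a := by
        rw [Finset.sum_const, card_powersetCard, smul_eq_mul, mul_comm]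

end Pool.Agent.Helper98.KT
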